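import Mathlib
import Pool.Agent.Helper71_NFree.Count

set_option autoImplicit false

/-! Records on locally minimal paths. -/

namespace Pool.Agent.Helper71_Ladder

open Pool.Agent.Helper71_NFree

variable {V : Type} [DecidableEq V]

/-- Forward reachability. -/
def FR (Y : Finset V) (B : Finset V → Prop) (b' : Finset V) : List V → Finset V → Prop
  | [], X => X = b'
  | (y :: m), X => ∃ z, Step Y X y z ∧ B z ∧ FR Y B b' m z

/-- Paths whose steps are locally minimal (except possibly the one ending in `b'`), together with a record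
`ρ` of the values of `D` at the entering steps. -/
def Rec (Y : Finset V) (B : Finset V → Prop) (b' : Finset V) (D : V → Finset V → Finset V → ℕ) (ρ : V → ℕ) :
    List V → Finset V → Prop
  | [], X => X = b'
  | (y :: m), X => ∃ z, Step Y X y z ∧ B z ∧ (z = b' ∨ ∀ d, B d → X ⊆ d → d ∩ Y = z ∩ Y → ¬ d ⊂ z) ∧
      (∀ s ∈ z, s ∉ X → ρ s = D s X z) ∧ Rec Y B b' D ρ m z

section basic

variable {Y : Finset V} {B : Finset V → Prop} {b' : Finset V} {D : V → Finset V → Finset V → ℕ}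

theorem FR.snoc {b c : Finset V} {y : V} (hs : Step Y c y b') (hB : B b') :
    ∀ {m : List V} {X : Finset V}, FR Y B c m X → FR Y B b' (m ++ [y]) X
  | [], X, h => by
    have h : X = c := h
    subst h
    exact ⟨b', hs, hB, rfl⟩
  | (_ :: _), X, h => by
    obtain ⟨z, h1, h2, h3⟩ := h
    exact ⟨z, h1, h2, FR.snoc (b := b) hs hB h3⟩

theorem FR.of_reach {b : Finset V} : ∀ {l : List V} {b' : Finset V}, Reach Y B b l b' → FR Y B b' l.reverse b
  | [], _, h => h
  | (y :: l), b', h => by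
    obtain ⟨hB, c, hs, hr⟩ := h
    rw [List.reverse_cons]
    exact FR.snoc (b := b) hs hB (FR.of_reach hr)

theorem FR.sub : ∀ {m : List V} {X : Finset V}, FR Y B b' m X → X ⊆ b'
  | [], X, h => by
    have h : X = b' := h
    rw [h]
  | (_ :: _), X, h => by
    obtain ⟨z, h1, h2, h3⟩ := h
    exact h1.1.trans (FR.sub h3)

theorem Rec.sub {ρ : V → ℕ} : ∀ {m : List V} {X : Finset V}, Rec Y B b' D ρ m X → X ⊆ b'
  | [], X, h => by
    have h : X = b' := h
    rw [h]
  | (_ :: _), X, h => by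
    obtain ⟨z, h1, -, -, -, h3⟩ := h
    exact h1.1.trans (Rec.sub h3)

theorem Rec.congr {ρ ρ' : V → ℕ} : ∀ {m : List V} {X : Finset V}, Rec Y B b' D ρ m X →
    (∀ s ∈ b', s ∉ X → ρ' s = ρ s) → Rec Y B b' D ρ' m X
  | [], _, h, _ => h
  | (_ :: _), X, h, he => by
    obtain ⟨z, h1, h2, h3, h4, h5⟩ := h
    refine ⟨z, h1, h2, h3, ?_, Rec.congr h5 ?_⟩
    · intro s hs hsX
      rw [he s (Rec.sub h5 hs) hsX]
      exact h4 s hs hsX
    · intro s hs hsz
      exact he s hs (fun h => hsz (h1.1 h))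

theorem FR.lower {z d : Finset V} (hd : d ⊆ z) (ht : d ∩ Y = z ∩ Y) {y : V} {m : List V}
    (h : FR Y B b' (y :: m) z) : FR Y B b' (y :: m) d := by
  obtain ⟨w, ⟨h1, h2, h3, h4⟩, h5, h6⟩ := h
  exact ⟨w, ⟨hd.trans h1, fun h => h2 (hd h), h3, by rw [h4, ht]⟩, h5, h6⟩

theorem exists_min {X z : Finset V} (hz : B z) (hXz : X ⊆ z) :
    ∃ d, B d ∧ X ⊆ d ∧ d ⊆ z ∧ d ∩ Y = z ∩ Y ∧ ∀ e, B e → X ⊆ e → e ∩ Y = d ∩ Y → ¬ e ⊂ d := by
  classical
  obtain ⟨d, hd1, hd2⟩ := (z.powerset.filter (fun d => B d ∧ X ⊆ d ∧ d ∩ Y = z ∩ Y)).exists_minimal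
    ⟨z, by simp [hz, hXz]⟩
  rw [Finset.mem_filter, Finset.mem_powerset] at hd1
  refine ⟨d, hd1.2.1, hd1.2.2.1, hd1.1, hd1.2.2.2, ?_⟩
  intro e he1 he2 he3 he4
  have := @hd2 e (Finset.mem_filter.2 ⟨Finset.mem_powerset.2 (he4.1.trans hd1.1), he1, he2,
    he3.trans hd1.2.2.2⟩) he4.1
  exact he4.2 this

theorem FR.rec_exists : ∀ {m : List V} {X : Finset V}, FR Y B b' m X → ∃ ρ : V → ℕ, Rec Y B b' D ρ m X
  | [], X, h => ⟨fun _ => 0, h⟩
  | [y], X, h => by
    classical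
    obtain ⟨z, h1, h2, h3⟩ := h
    exact ⟨fun s => D s X z, z, h1, h2, Or.inl h3, fun s _ _ => rfl, h3⟩
  | (y :: y' :: m), X, h => by
    classical
    obtain ⟨z, h1, h2, h3⟩ := h
    obtain ⟨d, hd1, hd2, hd3, hd4, hd5⟩ := exists_min (Y := Y) h2 h1.1
    obtain ⟨ρ, hρ⟩ := FR.rec_exists (FR.lower hd3 hd4 h3)
    refine ⟨fun s => if s ∈ d then D s X d else ρ s, d, ⟨hd2, h1.2.1, h1.2.2.1, ?_⟩, hd1, Or.inr hd5, ?_, ?_⟩
    · rw [hd4]; exact h1.2.2.2
    · intro s hs _
      simp [hs]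
    · refine Rec.congr hρ ?_
      intro s _ hs
      simp [hs]
  termination_by m => m.length

/-- The basic consequence of a divergence. -/
theorem Rec.late {ρ : V → ℕ} {b X z z' : Finset V}
    (hD : ∀ u w s, z ⊆ u → B u → u ⊂ w → B w → w ⊆ b' → z' ⊂ w → s ∈ z' → s ∉ u → s ∈ w → D s X z' ≠ D s u w)
    (hzz' : ¬ z ⊆ z') (hz'b : z' ⊆ b') (hρ : ∀ s ∈ z', s ∉ X → ρ s = D s X z') (hXz : X ⊆ z) :
    ∀ {m : List V} {u : Finset V}, Rec Y B b' D ρ m u → z ⊆ u → B u → ¬ z' ⊆ u → False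
  | [], u, h, _, _, hn => by
    have h : u = b' := h
    exact hn (h ▸ hz'b)
  | (y :: m), u, h, hzu, hBu, hn => by
    obtain ⟨w, h1, h2, h3, h4, h5⟩ := h
    by_cases hw : z' ⊆ w
    · obtain ⟨s, hs1, hs2⟩ := Finset.not_subset.1 hn
      have huw := h1.ssubset
      have hne : z' ⊂ w := by
        refine lt_of_le_of_ne hw ?_
        rintro rfl
        exact hzz' (hzu.trans huw.1)
      have e1 := hρ s hs1 (fun h => hs2 (hzu (hXz h)))
      have e2 := h4 s (hw hs1) hs2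
      exact hD u w s hzu hBu huw h2 (Rec.sub h5) hne hs1 hs2 (hw hs1) (e1 ▸ e2)
    · exact Rec.late (b := b) hD hzz' hz'b hρ hXz h5 (hzu.trans h1.1) h2 hw

theorem Step.trace_sub {X z z' : Finset V} {y y' : V} (h : Step Y X y z) (h' : Step Y X y' z') (hs : z ⊆ z') :
    z ∩ Y = z' ∩ Y := by
  obtain ⟨-, h2, h3, h4⟩ := h
  obtain ⟨-, h2', h3', h4'⟩ := h'
  have : y ∈ z' ∩ Y := Finset.inter_subset_inter hs (Finset.Subset.refl _) (by rw [h4]; exact Finset.mem_insert_self _ _)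
  rw [h4'] at this
  rcases Finset.mem_insert.1 this with h | h
  · rw [h4, h4', h]
  · exact absurd (Finset.mem_inter.1 h).1 h2

theorem Rec.nil_of_trace {ρ : V → ℕ} {z : Finset V} : ∀ {m : List V}, Rec Y B b' D ρ m z → z ∩ Y = b' ∩ Y → z = b'
  | [], h, _ => h
  | (y :: m), h, ht => by
    obtain ⟨w, h1, h2, h3, h4, h5⟩ := h
    have : y ∈ b' ∩ Y := by
      refine Finset.inter_subset_inter (Rec.sub h5) (Finset.Subset.refl _) ?_
      rw [h1.2.2.2]
      exact Finset.mem_insert_self _ _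
    rw [← ht] at this
    exact absurd (Finset.mem_inter.1 this).1 h1.2.1

/-- Two recorded paths with the same record have the same labels. -/
theorem Rec.unique {ρ : V → ℕ} {b : Finset V}
    (hD : ∀ X z z' u w s, b ⊆ X → X ⊂ z → B z → X ⊂ z' → B z' → ¬ z ⊆ z' → ¬ z' ⊆ z →
      z ⊆ u → B u → u ⊂ w → B w → w ⊆ b' → z' ⊂ w → s ∈ z' → s ∉ u → s ∈ w → D s X z' ≠ D s u w) :
    ∀ {m m' : List V} {X : Finset V}, b ⊆ X → Rec Y B b' D ρ m X → Rec Y B b' D ρ m' X → m = m'
  | [], [], _, _, _, _ => rfl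
  | [], (y :: m'), X, _, h, h' => by
    obtain ⟨w, h1, h2, h3, h4, h5⟩ := h'
    have h : X = b' := h
    have := Rec.sub h5
    exact absurd (h ▸ this) h1.ssubset.2
  | (y :: m), [], X, _, h', h => by
    obtain ⟨w, h1, h2, h3, h4, h5⟩ := h'
    have h : X = b' := h
    have := Rec.sub h5
    exact absurd (h ▸ this) h1.ssubset.2
  | (y :: m), (y' :: m'), X, hbX, h, h' => by
    obtain ⟨z, h1, h2, h3, h4, h5⟩ := h
    obtain ⟨z', h1', h2', h3', h4', h5'⟩ := h'
    have hzz : z = z' := by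
      by_contra hne
      have n1 : ¬ z ⊆ z' := by
        intro hs
        have ht := Step.trace_sub h1 h1' hs
        rcases h3' with h3' | h3'
        · rw [h3'] at ht hne
          exact hne (Rec.nil_of_trace h5 ht)
        · exact h3' z h2 h1.1 ht (lt_of_le_of_ne hs hne)
      have n2 : ¬ z' ⊆ z := by
        intro hs
        have ht := Step.trace_sub h1' h1 hs
        rcases h3 with h3 | h3
        · rw [h3] at ht hne
          exact hne (Rec.nil_of_trace h5' ht).symm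
        · exact h3 z' h2' h1'.1 ht (lt_of_le_of_ne hs (Ne.symm hne))
      refine Rec.late (b := b) (X := X) (z := z) (z' := z') ?_ n1 (Rec.sub h5') h4' h1.1 h5 (Finset.Subset.refl _) h2 n2
      intro u w s k1 k2 k3 k4 k5 k6 k7 k8 k9
      exact hD X z z' u w s hbX h1.ssubset h2 h1'.ssubset h2' n1 n2 k1 k2 k3 k4 k5 k6 k7 k8 k9
    subst hzz
    have hyy : y = y' := h1.label_unique h1'
    subst hyy
    rw [Rec.unique hD (hbX.trans h1.1) h5 h5']

end basic

/-- The counting theorem for records. -/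
theorem cov_of_records {Y : Finset V} {B : Finset V → Prop} {b b' : Finset V} {T : ℕ}
    (D : V → Finset V → Finset V → ℕ) (hT : ∀ s X z, D s X z ≤ T)
    (hD : ∀ X z z' u w s, b ⊆ X → X ⊂ z → B z → X ⊂ z' → B z' → ¬ z ⊆ z' → ¬ z' ⊆ z →
      z ⊆ u → B u → u ⊂ w → B w → w ⊆ b' → z' ⊂ w → s ∈ z' → s ∉ u → s ∈ w → D s X z' ≠ D s u w) :
    Cov (fun l => Reach Y B b l b') ((T + 1) ^ (b' \ b).card) := by
  classical
  set ext : (↥(b' \ b) → Fin (T + 1)) → V → ℕ := fun σ s => if h : s ∈ b' \ b then (σ ⟨s, h⟩ : ℕ) else 0 with hext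
  set f : (↥(b' \ b) → Fin (T + 1)) → List V := fun σ =>
    if h : ∃ m, Rec Y B b' D (ext σ) m b then h.choose.reverse else [] with hf
  refine ⟨Finset.univ.image f, ?_, ?_⟩
  · intro l hl
    obtain ⟨ρ, hρ⟩ := FR.rec_exists (D := fun s X z => D s X z) (FR.of_reach hl)
    -- values of ρ are bounded on b' \ b
    have hbound : ∀ {m : List V} {X : Finset V}, Rec Y B b' D ρ m X → ∀ s ∈ b', s ∉ X → ρ s ≤ T := by
      intro m
      induction m with
      | nil =>
        intro X h s hs hsX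
        have h : X = b' := h
        exact absurd (h ▸ hs) hsX
      | cons y m ih =>
        intro X h s hs hsX
        obtain ⟨z, h1, h2, h3, h4, h5⟩ := h
        by_cases hsz : s ∈ z
        · rw [h4 s hsz hsX]
          exact hT _ _ _
        · exact ih h5 s hs hsz
    set σ : ↥(b' \ b) → Fin (T + 1) := fun s => ⟨ρ s, by
      have h1 := s.2
      rw [Finset.mem_sdiff] at h1
      have := hbound hρ s.1 h1.1 h1.2
      omega⟩ with hσ
    have hρ' : Rec Y B b' D (ext σ) l.reverse b := by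
      refine Rec.congr hρ ?_
      intro s hs hsb
      have : s ∈ b' \ b := Finset.mem_sdiff.2 ⟨hs, hsb⟩
      simp only [hext, hσ, dif_pos this]
    refine Finset.mem_image.2 ⟨σ, Finset.mem_univ _, ?_⟩
    have hex : ∃ m, Rec Y B b' D (ext σ) m b := ⟨_, hρ'⟩
    simp only [hf]
    rw [dif_pos hex]
    rw [Rec.unique hD (Finset.Subset.refl _) hex.choose_spec hρ', List.reverse_reverse]
  · refine Finset.card_image_le.trans ?_
    rw [Finset.card_univ, Fintype.card_fun, Fintype.card_fin, Fintype.card_coe]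

end Pool.Agent.Helper71_Ladder
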