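import Mathlib
import Pool.Agent.Helper71_Ladder.Records
import Pool.Agent.Helper71_NFree.Copies

set_option autoImplicit false

/-! Ladders. -/

namespace Pool.Agent.Helper71_Ladder

open Pool.Agent.Helper71_NFree

variable {V : Type} [DecidableEq V]

/-- Depth of the ladder below the step from `X` to `z` at the element `s`. -/
def Dep (B : Finset V → Prop) (b b' : Finset V) (s : V) : ℕ → Finset V → Finset V → Prop
  | 0, X, z => b ⊆ X ∧ B z ∧ X ⊂ z ∧ z ⊆ b' ∧ s ∈ z ∧ s ∉ X
  | (t + 1), X, z => (b ⊆ X ∧ B z ∧ X ⊂ z ∧ z ⊆ b' ∧ s ∈ z ∧ s ∉ X) ∧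
      ∃ X₀ z₀ y₀, Dep B b b' s t X₀ z₀ ∧ z₀ ⊂ z ∧ B y₀ ∧ X₀ ⊂ y₀ ∧ s ∉ y₀ ∧ ¬ y₀ ⊆ z₀ ∧ y₀ ⊆ X

section dep

variable {B : Finset V → Prop} {b b' : Finset V} {s : V}

omit [DecidableEq V] in
theorem Dep.base : ∀ {t : ℕ} {X z : Finset V}, Dep B b b' s t X z →
    b ⊆ X ∧ B z ∧ X ⊂ z ∧ z ⊆ b' ∧ s ∈ z ∧ s ∉ X
  | 0, _, _, h => h
  | (_ + 1), _, _, h => h.1

omit [DecidableEq V] in
/-- The two chains of a ladder. -/
theorem Dep.chains : ∀ {t : ℕ} {X z : Finset V}, Dep B b b' s t X z →
    ∃ (y w : ℕ → Finset V), w t = z ∧ (∀ i < t, B (y i) ∧ b ⊂ y i ∧ s ∉ y i ∧ y i ⊆ X ∧ ¬ y i ⊆ w i) ∧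
      (∀ i ≤ t, B (w i) ∧ b ⊂ w i ∧ s ∈ w i) ∧ (∀ i j, i < j → j < t → y i ⊂ y j) ∧
      (∀ i j, i < j → j ≤ t → w i ⊂ w j) ∧ (∀ i j, i < j → j ≤ t → y i ⊆ w j)
  | 0, X, z, h => by
    obtain ⟨h1, h2, h3, h4, h5, h6⟩ := h
    refine ⟨fun _ => X, fun _ => z, rfl, ?_, ?_, ?_, ?_, ?_⟩
    · intro i hi; omega
    · intro i _; exact ⟨h2, lt_of_le_of_lt h1 h3, h5⟩
    · intro i j h h'; omega
    · intro i j h h'; omega
    · intro i j h h'; omega
  | (t + 1), X, z, h => by
    obtain ⟨⟨h1, h2, h3, h4, h5, h6⟩, X₀, z₀, y₀, g1, g2, g3, g4, g5, g6, g7⟩ := h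
    obtain ⟨y, w, k1, k2, k3, k4, k5, k6⟩ := Dep.chains g1
    have hb := g1.base
    refine ⟨fun i => if i < t then y i else y₀, fun i => if i ≤ t then w i else z, by simp, ?_, ?_, ?_, ?_, ?_⟩
    · intro i hi
      by_cases hit : i < t
      · obtain ⟨a1, a2, a3, a4, a5⟩ := k2 i hit
        simp only [hit, if_true, hit.le]
        exact ⟨a1, a2, a3, (a4.trans g4.1).trans g7, a5⟩
      · have : i = t := by omega
        subst this
        simp only [lt_irrefl, if_false, le_refl, if_true]
        exact ⟨g3, lt_of_le_of_lt hb.1 g4, g5, g7, k1 ▸ g6⟩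
    · intro i hi
      by_cases hit : i ≤ t
      · simp only [hit, if_true]
        exact k3 i hit
      · simp only [hit, if_false]
        exact ⟨h2, lt_of_le_of_lt h1 h3, h5⟩
    · intro i j hij hj
      by_cases hjt : j < t
      · simp only [hjt, if_true, hij.trans hjt]
        exact k4 i j hij hjt
      · have : j = t := by omega
        subst this
        simp only [hij, if_true, lt_irrefl, if_false]
        exact lt_of_le_of_lt (k2 i hij).2.2.2.1 g4
    · intro i j hij hj
      by_cases hjt : j ≤ t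
      · simp only [hjt, if_true, hij.le.trans hjt]
        exact k5 i j hij hjt
      · have hit : i ≤ t := by omega
        simp only [hit, if_true, hjt, if_false]
        rcases Nat.lt_or_ge i t with hlt | hge
        · exact (k5 i t hlt (le_refl _)).trans (k1 ▸ g2)
        · have : i = t := by omega
          rw [this, k1]; exact g2
    · intro i j hij hj
      by_cases hjt : j ≤ t
      · have hit : i < t := by omega
        simp only [hjt, if_true, hit]
        exact k6 i j hij hjt
      · simp only [hjt, if_false]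
        by_cases hit : i < t
        · simp only [hit, if_true]
          exact (((k2 i hit).2.2.2.1.trans g4.1).trans g7).trans h3.1
        · simp only [hit, if_false]
          exact g7.trans h3.1

omit [DecidableEq V] in
/-- A deep step gives a ladder. -/
theorem Dep.copy {α : Type} [PartialOrder α] {S : Finset α} {t : ℕ} (e : α → Fin 2 × Fin t)
    (he : ∀ x ∈ S, ∀ y ∈ S, e x ≤ e y ↔ x ≤ y) {X z : Finset V} (h : Dep B b b' s (t + 1) X z) :
    HasCopy B S b b' := by
  obtain ⟨y, w, k1, k2, k3, k4, k5, k6⟩ := h.chains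
  have hz := h.base
  have hwz : ∀ i < t + 1, w i ⊂ b' := by
    intro i hi
    have := k5 i (t + 1) hi (le_refl _)
    rw [k1] at this
    exact lt_of_lt_of_le this hz.2.2.2.1
  have hyb : ∀ i < t + 1, y i ⊂ b' := by
    intro i hi
    exact lt_of_lt_of_le (lt_of_le_of_lt (k2 i hi).2.2.2.1 hz.2.2.1) hz.2.2.2.1
  have hyw : ∀ i j, i < t + 1 → j ≤ t + 1 → (y i ⊆ w j ↔ i < j) := by
    intro i j hi hj
    constructor
    · intro hs
      by_contra hcon
      have hji : j ≤ i := by omega
      have : w j ⊆ w i := by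
        rcases Nat.lt_or_ge j i with h1 | h1
        · exact (k5 j i h1 (by omega)).1
        · have : j = i := by omega
          rw [this]
      exact (k2 i hi).2.2.2.2 (hs.trans this)
    · intro hs
      exact k6 i j hs hj
  have hwy : ∀ i j, i < t + 1 → j ≤ t + 1 → ¬ w j ⊆ y i := by
    intro i j hi hj hs
    exact (k2 i hi).2.2.1 (hs (k3 j hj).2.2)
  have hyy : ∀ i j, i < t + 1 → j < t + 1 → (y i ⊆ y j ↔ i ≤ j) := by
    intro i j hi hj
    constructor
    · intro hs
      by_contra hcon
      exact (k4 j i (by omega) hi).2 hs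
    · intro hs
      rcases Nat.lt_or_ge i j with h1 | h1
      · exact (k4 i j h1 hj).1
      · have : i = j := by omega
        rw [this]
  have hww : ∀ i j, i ≤ t + 1 → j ≤ t + 1 → (w i ⊆ w j ↔ i ≤ j) := by
    intro i j hi hj
    constructor
    · intro hs
      by_contra hcon
      exact (k5 j i (by omega) hi).2 hs
    · intro hs
      rcases Nat.lt_or_ge i j with h1 | h1
      · exact (k5 i j h1 hj).1
      · have : i = j := by omega
        rw [this]
  refine ⟨fun x => if (e x).1 = 0 then y (e x).2 else w ((e x).2 + 1), ?_, ?_⟩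
  · intro x _
    have hlt := (e x).2.2
    by_cases h0 : (e x).1 = 0
    · simp only [h0, if_true]
      exact ⟨(k2 _ (by omega)).1, (k2 _ (by omega)).2.1, hyb _ (by omega)⟩
    · simp only [h0, if_false]
      exact ⟨(k3 _ (by omega)).1, (k3 _ (by omega)).2.1, hwz _ (by omega)⟩
  · intro x hx x' hx'
    rw [← he x hx x' hx']
    have hlt := (e x).2.2
    have hlt' := (e x').2.2
    rw [Prod.le_def]
    by_cases h0 : (e x).1 = 0
    · by_cases h0' : (e x').1 = 0
      · simp only [h0, h0', if_true, le_refl, true_and]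
        rw [hyy _ _ (by omega) (by omega)]
        rfl
      · simp only [h0, h0', if_true, if_false]
        rw [hyw _ _ (by omega) (by omega)]
        have : (0 : Fin 2) ≤ (e x').1 := Fin.zero_le _
        simp only [this, true_and]
        rw [Nat.lt_succ_iff]
        rfl
    · by_cases h0' : (e x').1 = 0
      · simp only [h0, h0', if_true, if_false]
        have h1 : ¬ w ((e x).2 + 1) ⊆ y (e x').2 := hwy _ _ (by omega) (by omega)
        have h2 : ¬ (e x).1 ≤ (0 : Fin 2) := by
          intro h
          exact h0 (le_antisymm h (Fin.zero_le _))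
        simp only [h1, h2, false_and]
      · simp only [h0, h0', if_false]
        rw [hww _ _ (by omega) (by omega)]
        have e1 : (e x).1 = 1 := by
          have := (e x).1.2
          apply Fin.ext
          have h3 : ((e x).1 : ℕ) ≠ 0 := fun h => h0 (Fin.ext h)
          simp only [Fin.val_one]
          omega
        have e2 : (e x').1 = 1 := by
          have := (e x').1.2
          apply Fin.ext
          have h3 : ((e x').1 : ℕ) ≠ 0 := fun h => h0' (Fin.ext h)
          simp only [Fin.val_one]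
          omega
        rw [e1, e2]
        simp only [le_refl, true_and]
        rw [Nat.succ_le_succ_iff]
        rfl

end dep

/-- Subposets of ladders have the counting property. -/
theorem good_ladder {α : Type} [PartialOrder α] {S : Finset α} {t : ℕ} (e : α → Fin 2 × Fin t)
    (he : ∀ x ∈ S, ∀ y ∈ S, e x ≤ e y ↔ x ≤ y) (Y : Finset V) (B : Finset V → Prop) :
    Good Y B (t + 1) (HasCopy B S) := by
  classical
  intro b b' hF
  set D : V → Finset V → Finset V → ℕ := fun s X z => Nat.findGreatest (fun r => Dep B b b' s r X z) t with hD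
  refine cov_of_records D (fun s X z => Nat.findGreatest_le _) ?_
  intro X z z' u w s hbX hXz hBz hXz' hBz' hzz' hz'z hzu hBu huw hBw hwb' hz'w hs hsu hsw
  have hsX : s ∉ X := fun h => hsu (hzu (hXz.1 h))
  have hbase : Dep B b b' s 0 X z' := ⟨hbX, hBz', hXz', hz'w.1.trans hwb', hs, hsX⟩
  have h1 : Dep B b b' s (D s X z') X z' :=
    Nat.findGreatest_spec (P := fun r => Dep B b b' s r X z') (Nat.zero_le t) hbase
  have h2 : Dep B b b' s (D s X z' + 1) u w :=
    ⟨⟨hbX.trans (hXz.1.trans hzu), hBw, huw, hwb', hsw, hsu⟩, X, z', z, h1, hz'w, hBz, hXz,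
      fun h => hsu (hzu h), hzz', hzu⟩
  have hle : D s X z' ≤ t := Nat.findGreatest_le _
  rcases Nat.lt_or_ge (D s X z') t with hlt | hge
  · have : D s X z' + 1 ≤ D s u w := Nat.le_findGreatest (by omega) h2
    omega
  · have heq : D s X z' = t := by omega
    rw [heq] at h2
    exact absurd (h2.copy e he) hF

end Pool.Agent.Helper71_Ladder
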