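import Mathlib
import Pool.Agent.Helper71_Ladder.Ladder
import Pool.Agent.Helper71_NFree.Copies

set_option autoImplicit false

/-! Posets built from ladders by series and parallel composition. -/

namespace Pool.Agent.Helper71_Ladder

open Pool.Agent.Helper71_NFree

variable {α : Type} [PartialOrder α]

/-- The counting property, uniformly in the ambient cube. -/
def UGood (S : Finset α) : Prop :=
  ∃ K : ℕ, 1 ≤ K ∧ ∀ (N : ℕ) (Y : Finset (Fin N)) (B : Finset (Fin N) → Prop), Good Y B K (HasCopy B S)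

theorem UGood.point (x : α) : UGood ({x} : Finset α) := by
  refine ⟨2, by norm_num, fun N Y B => ?_⟩
  refine (good_point Y B).mono (le_refl _) ?_
  rintro b b' ⟨z, hz1, hz2, hz3⟩
  refine ⟨fun _ => z, fun y _ => ⟨hz1, hz2, hz3⟩, ?_⟩
  intro u hu v hv
  rw [Finset.mem_singleton] at hu hv
  subst hu; subst hv
  simp

theorem UGood.ladder {S : Finset α} {t : ℕ} (e : α → Fin 2 × Fin t)
    (he : ∀ x ∈ S, ∀ y ∈ S, e x ≤ e y ↔ x ≤ y) : UGood S :=
  ⟨t + 1, by omega, fun _ Y B => good_ladder e he Y B⟩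

theorem UGood.pair [DecidableEq α] {S A : Finset α} (hAne : A.Nonempty) (h1 : UGood A)
    (h2 : UGood (S \ A)) : ∃ K : ℕ, 1 ≤ K ∧ ∀ (N : ℕ) (Y : Finset (Fin N)) (B : Finset (Fin N) → Prop),
      Good Y B K (fun b b' => ∃ c, HasCopy B A b c ∧ HasCopy B (S \ A) c b') := by
  obtain ⟨K₁, hK₁, hG₁⟩ := h1
  obtain ⟨K₂, hK₂, hG₂⟩ := h2
  refine ⟨8 * (max K₁ K₂), ?_, fun N Y B => ?_⟩
  · have := le_max_left K₁ K₂
    omega
  · refine good_series (le_max_of_le_left hK₁) ?_ ((hG₁ N Y B).mono (le_max_left _ _) (fun _ _ h => h))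
      ((hG₂ N Y B).mono (le_max_right _ _) (fun _ _ h => h))
    intro c hcc
    exact absurd (hcc.ssub hAne) (ssubset_irrefl _)

theorem UGood.series [DecidableEq α] {S A : Finset α} (hA : SerSplit S A) (h1 : UGood A)
    (h2 : UGood (S \ A)) : UGood S := by
  obtain ⟨K, hK, hG⟩ := UGood.pair (S := S) hA.2.1 h1 h2
  exact ⟨K, hK, fun N Y B => (hG N Y B).mono (le_refl _) (fun b b' h => HasCopy.series hA h)⟩

theorem UGood.parallel [DecidableEq α] {S A : Finset α} (hA : ParSplit S A) (h1 : UGood A)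
    (h2 : UGood (S \ A)) : UGood S := by
  obtain ⟨K, hK, hG⟩ := UGood.pair (S := S) hA.2.1 h1 h2
  have hne2 : (S \ A).Nonempty := by
    obtain ⟨x, hx, hxA⟩ := hA.2.2.1
    exact ⟨x, Finset.mem_sdiff.2 ⟨hx, hxA⟩⟩
  refine ⟨128 * K, by omega, fun N Y B => ?_⟩
  refine (good_par hK ?_ ?_ (hG N Y B)).mono (le_refl _) (fun b b' h => HasCopy.parallel hA h)
  · rintro c d c' d' ⟨m, hm1, hm2⟩ h1 h2
    exact ⟨m, hm1.mono h1 (Finset.Subset.refl _), hm2.mono (Finset.Subset.refl _) h2⟩
  · rintro c d ⟨m, hm1, hm2⟩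
    exact lt_trans (hm1.ssub hA.2.1) (hm2.ssub hne2)

/-- If every subset with at least two elements splits or is a piece of a ladder then every nonempty subset has
the counting property. -/
theorem ugood_of_pieces [DecidableEq α]
    (h : ∀ S : Finset α, 2 ≤ S.card → (∃ A, SerSplit S A ∨ ParSplit S A) ∨
      ∃ (t : ℕ) (e : α → Fin 2 × Fin t), ∀ x ∈ S, ∀ y ∈ S, e x ≤ e y ↔ x ≤ y) :
    ∀ (m : ℕ) (S : Finset α), S.card ≤ m → S.Nonempty → UGood S := by
  intro m
  induction m with
  | zero =>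
    intro S h hne
    have := Finset.card_pos.2 hne
    omega
  | succ m ih =>
    intro S hcard hne
    rcases Nat.lt_or_ge S.card 2 with hlt | hge
    · have h1 : S.card = 1 := by
        have := Finset.card_pos.2 hne
        omega
      obtain ⟨x, hx⟩ := Finset.card_eq_one.1 h1
      subst hx
      exact UGood.point x
    · rcases h S hge with ⟨A, hA⟩ | ⟨t, e, he⟩
      · have hsub : A ⊆ S ∧ A.Nonempty ∧ (∃ x ∈ S, x ∉ A) := by
          rcases hA with hA | hA
          · exact ⟨hA.1, hA.2.1, hA.2.2.1⟩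
          · exact ⟨hA.1, hA.2.1, hA.2.2.1⟩
        obtain ⟨hAS, hAne, ⟨y₀, hy₀, hy₀A⟩⟩ := hsub
        have hne2 : (S \ A).Nonempty := ⟨y₀, Finset.mem_sdiff.2 ⟨hy₀, hy₀A⟩⟩
        have hc : (S \ A).card + A.card = S.card := Finset.card_sdiff_add_card_eq_card hAS
        have p1 := Finset.card_pos.2 hAne
        have p2 := Finset.card_pos.2 hne2
        have g1 := ih A (by omega) hAne
        have g2 := ih (S \ A) (by omega) hne2
        rcases hA with hA | hA
        · exact UGood.series hA g1 g2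
        · exact UGood.parallel hA g1 g2
      · exact UGood.ladder e he

end Pool.Agent.Helper71_Ladder
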