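import Mathlib
import Pool.Agent.Helper71_Ladder.Build
import Pool.Agent.Helper71_NFree.Chain

set_option autoImplicit false

/-! From the counting property to the Ramsey bound. -/

namespace Pool.Agent.Helper71_Ladder

open Filter Pool.Agent.Helper71_NFree

/-- If all orders of `Y` are realised by blue chains, then `|Y|!` is at most exponential. -/
theorem factorial_le {N : ℕ} (Y : Finset (Fin N)) (B : Finset (Fin N) → Prop) (K : ℕ) (hK : 1 ≤ K)
    (h : ∀ b b', Cov (fun l => Reach Y B b l b') (K ^ (b' \ b).card))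
    (hchain : ∀ l : List (Fin N), l.Nodup → (∀ y ∈ l, y ∈ Y) → ∃ b b', Reach Y B b l b') :
    (Y.card).factorial ≤ (4 * K) ^ N := by
  classical
  have hc : Cov (fun l => ∃ p ∈ ((Finset.univ : Finset (Finset (Fin N))) ×ˢ (Finset.univ : Finset (Finset (Fin N)))),
      Reach Y B p.1 l p.2)
      ((((Finset.univ : Finset (Finset (Fin N))) ×ˢ (Finset.univ : Finset (Finset (Fin N)))).card) * K ^ N) := by
    refine Cov.const _ ?_
    rintro ⟨b, b'⟩ -
    refine (h b b').mono (fun l hl => hl) (Nat.pow_le_pow_right hK ?_)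
    calc (b' \ b).card ≤ (Finset.univ : Finset (Fin N)).card := Finset.card_le_univ _
      _ = N := by simp
  obtain ⟨S, hS1, hS2⟩ := hc
  have hperm : (Y.toList.permutations.toFinset).card = (Y.card).factorial := by
    rw [List.toFinset_card_of_nodup (List.nodup_permutations _ Y.nodup_toList), List.length_permutations,
      Finset.length_toList]
  rw [← hperm]
  have hsub : Y.toList.permutations.toFinset ⊆ S := by
    intro l hl
    rw [List.mem_toFinset, List.mem_permutations] at hl
    have hnd : l.Nodup := hl.nodup_iff.2 Y.nodup_toList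
    have hmem : ∀ y ∈ l, y ∈ Y := fun y hy => Finset.mem_toList.1 (hl.mem_iff.1 hy)
    obtain ⟨b, b', hr⟩ := hchain l hnd hmem
    exact hS1 l ⟨(b, b'), by simp, hr⟩
  refine (Finset.card_le_card hsub).trans (hS2.trans ?_)
  rw [Finset.card_product, Finset.card_univ, Fintype.card_finset, Fintype.card_fin, mul_pow]
  apply le_of_eq
  congr 1
  rw [← mul_pow]
  norm_num

/-- Growth comparison. -/
theorem growth (K : ℕ) (hK : 1 ≤ K) : ∃ C : ℝ, 0 < C ∧ ∀ᶠ n : ℕ in atTop, ∀ k : ℕ,
    C * (n : ℝ) / Real.log (n : ℝ) ≤ (k : ℝ) → (4 * K) ^ (n + k) < k.factorial := by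
  set a : ℝ := Real.log (4 * K) with ha
  have hK' : (1 : ℝ) ≤ K := by exact_mod_cast hK
  have ha0 : 0 < a := Real.log_pos (by linarith)
  refine ⟨4 * a + 4, by positivity, ?_⟩
  have hlog : Tendsto (fun n : ℕ => Real.log (n : ℝ)) atTop atTop :=
    Real.tendsto_log_atTop.comp tendsto_natCast_atTop_atTop
  have hsq : ∀ᶠ n : ℕ in atTop, Real.log (n : ℝ) ≤ (n : ℝ) ^ (1 / 2 : ℝ) := by
    have := (isLittleO_log_rpow_atTop (show (0 : ℝ) < 1 / 2 by norm_num)).bound (show (0 : ℝ) < 1 by norm_num)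
    have h2 := tendsto_natCast_atTop_atTop (R := ℝ) |>.eventually this
    filter_upwards [h2, eventually_ge_atTop 1] with n hn h1
    have hn1 : (1 : ℝ) ≤ n := by exact_mod_cast h1
    have e1 : ‖Real.log (n : ℝ)‖ = Real.log n := by
      rw [Real.norm_eq_abs, abs_of_nonneg (Real.log_nonneg hn1)]
    have e2 : ‖(n : ℝ) ^ (1 / 2 : ℝ)‖ = (n : ℝ) ^ (1 / 2 : ℝ) := by
      rw [Real.norm_eq_abs, abs_of_nonneg (Real.rpow_nonneg (by linarith) _)]
    rw [e1, e2, one_mul] at hn
    exact hn
  filter_upwards [hsq, hlog.eventually_ge_atTop (4 * (1 + a) + 4), eventually_ge_atTop 3] with n hn1 hn2 hn3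
  intro k hk
  have hn0 : (3 : ℝ) ≤ n := by exact_mod_cast hn3
  have hlogpos : 0 < Real.log (n : ℝ) := by linarith
  -- lower bound for k
  have hk1 : (n : ℝ) ^ (1 / 2 : ℝ) ≤ k := by
    have h1 : (n : ℝ) / Real.log n ≤ k := by
      refine le_trans ?_ hk
      rw [mul_div_assoc]
      have : 0 ≤ (n : ℝ) / Real.log n := by positivity
      nlinarith
    refine le_trans ?_ h1
    rw [le_div_iff₀ hlogpos]
    calc (n : ℝ) ^ (1 / 2 : ℝ) * Real.log n ≤ (n : ℝ) ^ (1 / 2 : ℝ) * (n : ℝ) ^ (1 / 2 : ℝ) :=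
          mul_le_mul_of_nonneg_left hn1 (Real.rpow_nonneg (by linarith) _)
      _ = n := by
        rw [← Real.rpow_add (by linarith)]
        norm_num
  have hkpos : (0 : ℝ) < k := lt_of_lt_of_le (Real.rpow_pos_of_pos (by linarith) _) hk1
  have hlogk : Real.log n / 2 ≤ Real.log k := by
    have := Real.log_le_log (Real.rpow_pos_of_pos (by linarith) _) hk1
    rw [Real.log_rpow (by linarith)] at this
    linarith
  -- main inequality in logarithms
  have hmain : (n + k) * a < k * Real.log k - k := by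
    have h1 : Real.log n / 4 + 1 ≤ Real.log k - 1 - a := by linarith
    have h2 : (4 * a + 4) * n ≤ k * Real.log n := by
      rw [div_le_iff₀ hlogpos] at hk
      exact hk
    have h3 : k * (Real.log n / 4 + 1) ≤ k * (Real.log k - 1 - a) := mul_le_mul_of_nonneg_left h1 hkpos.le
    nlinarith
  have hfac : (k : ℝ) ^ k / k.factorial ≤ Real.exp k := Real.pow_div_factorial_le_exp (k : ℝ) hkpos.le k
  have hfacpos : (0 : ℝ) < k.factorial := by exact_mod_cast Nat.factorial_pos k
  have hreal : ((4 * K : ℕ) : ℝ) ^ (n + k) < k.factorial := by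
    have h4K : (0 : ℝ) < 4 * K := by linarith
    have e1 : ((4 * K : ℕ) : ℝ) ^ (n + k) = Real.exp ((n + k) * a) := by
      have : ((4 * K : ℕ) : ℝ) = Real.exp a := by
        rw [ha, Real.exp_log h4K]
        push_cast
        ring
      rw [this, ← Real.exp_nat_mul]
      push_cast
      ring_nf
    have e2 : (k : ℝ) ^ k = Real.exp (k * Real.log k) := by
      rw [Real.exp_nat_mul, Real.exp_log hkpos]
    rw [div_le_iff₀ hfacpos] at hfac
    rw [e1]
    have e3 : Real.exp ((n + k) * a) < Real.exp (k * Real.log k - k) := Real.exp_lt_exp.2 hmain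
    have e4 : Real.exp (k * Real.log k - k) = (k : ℝ) ^ k / Real.exp k := by
      rw [Real.exp_sub, e2]
    have e5 : (k : ℝ) ^ k / Real.exp k ≤ k.factorial := by
      rw [div_le_iff₀ (Real.exp_pos _)]
      linarith
    linarith
  exact_mod_cast hreal

/-- A poset with the counting property satisfies `R(P, Q_n) ≤ n + C n / log n`. -/
theorem modest_of_ugood {α : Type} [Fintype α] [PartialOrder α] (hG : UGood (Finset.univ : Finset α)) :
    ∃ C : ℝ, 0 < C ∧ ∀ᶠ n : ℕ in atTop, ∀ N : ℕ,
      (n : ℝ) + C * (n : ℝ) / Real.log (n : ℝ) ≤ (N : ℝ) →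
      ∀ c : Finset (Fin N) → Bool,
        (∃ f : α ↪o Finset (Fin N), ∀ x, c (f x) = true) ∨
        (∃ g : Finset (Fin n) ↪o Finset (Fin N), ∀ s, c (g s) = false) := by
  classical
  obtain ⟨K, hK, hG⟩ := hG
  obtain ⟨C, hC, hgrow⟩ := growth K hK
  refine ⟨C, hC, ?_⟩
  filter_upwards [hgrow, eventually_ge_atTop 3] with n hn hn3
  intro N hNn c
  by_contra hcon
  push Not at hcon
  obtain ⟨hblue, hred⟩ := hcon
  have hn0 : (3 : ℝ) ≤ n := by exact_mod_cast hn3
  have hlogpos : 0 < Real.log (n : ℝ) := Real.log_pos (by linarith)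
  have hnN : n ≤ N := by
    have : (n : ℝ) ≤ N := by
      have : 0 ≤ C * (n : ℝ) / Real.log (n : ℝ) := by positivity
      linarith
    exact_mod_cast this
  obtain ⟨X, -, hX⟩ := Finset.exists_subset_card_eq (s := (Finset.univ : Finset (Fin N))) (n := n) (by simpa using hnN)
  set Y : Finset (Fin N) := Xᶜ with hY
  have hYcard : Y.card = N - n := by rw [hY, Finset.card_compl, hX, Fintype.card_fin]
  set B : Finset (Fin N) → Prop := fun s => c s = true with hB
  have hnocopy : ∀ b b', ¬ HasCopy B (Finset.univ : Finset α) b b' := by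
    rintro b b' ⟨f, hf1, hf2⟩
    obtain ⟨x, hx⟩ := hblue (OrderEmbedding.ofMapLEIff f (fun x y => hf2 x (Finset.mem_univ _) y (Finset.mem_univ _)))
    exact hx (hf1 x (Finset.mem_univ _)).1
  have hred' : ¬ ∃ g : Finset (Fin n) ↪o Finset (Fin N), ∀ s, ¬ B (g s) := by
    rintro ⟨g, hg⟩
    obtain ⟨s, hs⟩ := hred g
    exact hs (by simpa [hB] using hg s)
  have hfac := factorial_le Y B K hK (fun b b' => hG N Y B b b' (hnocopy b b'))
    (fun l hnd hl => chain_lemma B X Y disjoint_compl_right hX hred' l hnd hl)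
  have hlt := hn (N - n) (by
    rw [Nat.cast_sub hnN]
    linarith)
  rw [hYcard] at hfac
  have : n + (N - n) = N := by omega
  rw [this] at hlt
  omega

end Pool.Agent.Helper71_Ladder
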